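import Pool.Agent.Y16.AF.StmA

/-!
Project AF: logarithmic sums over the momenta.
-/

set_option autoImplicit false

namespace Pool.Agent.Y363.AF

open Pool.Agent.Y16.AF Finset

section
variable {L : ℕ} [NeZero L]

/-- the length of the momentum -/
noncomputable def ln (k : Sp L) : ℝ := Real.sqrt (∑ j, (((k j).valMinAbs : ℤ) : ℝ) ^ 2)

lemma cos_ang (k : Sp L) (j : Fin 3) :
    Real.cos (ang k j) = Real.cos (2 * Real.pi / L * ((k j).valMinAbs : ℤ)) := by
  have hL : (L : ℝ) ≠ 0 := Nat.cast_ne_zero.2 (NeZero.ne L)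
  unfold ang
  rw [ZMod.valMinAbs_def_pos]
  split_ifs with h
  · congr 1
    push_cast
    ring
  · have e : 2 * Real.pi / L * (((((k j).val : ℕ) : ℤ) - (L : ℤ) : ℤ) : ℝ) =
        2 * Real.pi * ((k j).val : ℝ) / L - 2 * Real.pi := by
      push_cast
      field_simp
    rw [e, Real.cos_sub_two_pi]

lemma wh2_le (k : Sp L) : wh2 k ≤ (2 * Real.pi / L * ln k) ^ 2 := by
  have h0 : 0 ≤ ∑ j, (((k j).valMinAbs : ℤ) : ℝ) ^ 2 := sum_nonneg fun j _ => sq_nonneg _
  unfold wh2 ln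
  rw [mul_pow, Real.sq_sqrt h0, mul_sum]
  refine sum_le_sum fun j _ => ?_
  rw [cos_ang]
  have h1 := Real.one_sub_sq_div_two_le_cos (x := 2 * Real.pi / L * ((k j).valMinAbs : ℤ))
  rw [← mul_pow]
  linarith

lemma sq_le_cosh {w : ℝ} (hw : 0 ≤ w) : w ^ 2 ≤ 2 * Real.cosh w - 2 := by
  have h1 : Real.cosh w = 2 * Real.sinh (w / 2) ^ 2 + 1 := by
    have h2 := Real.cosh_two_mul (w / 2)
    have h3 := Real.cosh_sq (w / 2)
    rw [mul_div_cancel₀ w (two_ne_zero)] at h2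
    rw [h2, h3]
    ring
  have h4 : w / 2 ≤ Real.sinh (w / 2) := Real.self_le_sinh_iff.2 (by linarith)
  have h5 : (w / 2) ^ 2 ≤ Real.sinh (w / 2) ^ 2 := pow_le_pow_left₀ (by linarith) h4 2
  rw [h1]
  linarith

lemma inv_cube {w κ C : ℝ} (hw : 0 < w) (h1 : w ≤ κ) (h2 : κ - w ≤ C * w ^ 3) :
    |1 / w ^ 3 - 1 / κ ^ 3| ≤ 3 * C * (1 / w) := by
  have hκ : 0 < κ := lt_of_lt_of_le hw h1
  have hC : 0 ≤ C := by
    have h3 : 0 ≤ C * w ^ 3 := le_trans (by linarith) h2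
    exact nonneg_of_mul_nonneg_left h3 (by positivity)
  have e : 1 / w ^ 3 - 1 / κ ^ 3 = (κ - w) * (κ ^ 2 + κ * w + w ^ 2) / (w ^ 3 * κ ^ 3) := by
    field_simp
    ring
  have h3 : 0 ≤ 1 / w ^ 3 - 1 / κ ^ 3 := by
    rw [e]
    apply div_nonneg
    · exact mul_nonneg (by linarith) (by positivity)
    · positivity
  rw [abs_of_nonneg h3, e, div_le_iff₀ (by positivity)]
  have h4 : κ ^ 2 + κ * w + w ^ 2 ≤ 3 * κ ^ 2 := by nlinarith
  have h5 : (κ - w) * (κ ^ 2 + κ * w + w ^ 2) ≤ (C * w ^ 3) * (3 * κ ^ 2) :=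
    mul_le_mul h2 h4 (by positivity) (by positivity)
  refine h5.trans ?_
  have e2 : 3 * C * (1 / w) * (w ^ 3 * κ ^ 3) = 3 * C * w ^ 2 * κ ^ 3 := by
    field_simp
  rw [e2]
  have h6 : w ^ 3 * κ ^ 2 ≤ w ^ 2 * κ ^ 3 := by
    have : w ^ 2 * κ ^ 2 * w ≤ w ^ 2 * κ ^ 2 * κ := mul_le_mul_of_nonneg_left h1 (by positivity)
    linarith
  nlinarith

/-- permutation of the coordinates -/
def pe (σ : Equiv.Perm (Fin 3)) : Sp L ≃ Sp L := Equiv.arrowCongr σ (Equiv.refl _)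

lemma pe_apply (σ : Equiv.Perm (Fin 3)) (k : Sp L) (j : Fin 3) : pe σ k j = k (σ.symm j) := rfl

lemma wh2_pe (σ : Equiv.Perm (Fin 3)) (k : Sp L) : wh2 (pe σ k) = wh2 k := by
  unfold wh2 ang
  simp only [pe_apply]
  exact Equiv.sum_comp σ.symm (fun j => 2 - 2 * Real.cos (2 * Real.pi * ((k j).val : ℝ) / L))

lemma en_pe (σ : Equiv.Perm (Fin 3)) (k : Sp L) : en (pe σ k) = en k := by
  unfold en
  rw [wh2_pe]

lemma sum_perm (j : Fin 3) :
    ∑ k ∈ univ.filter (fun k : Sp L => k ≠ 0), Real.sin (ang k 0) ^ 2 / en k ^ 5 =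
      ∑ k ∈ univ.filter (fun k : Sp L => k ≠ 0), Real.sin (ang k j) ^ 2 / en k ^ 5 := by
  refine Finset.sum_equiv (pe (Equiv.swap 0 j)) (fun k => ?_) (fun k _ => ?_)
  · simp only [mem_filter, mem_univ, true_and]
    apply not_congr
    constructor
    · rintro rfl
      funext i
      rfl
    · intro h
      funext i
      have h1 := congrFun h (Equiv.swap 0 j i)
      rw [pe_apply, Equiv.symm_apply_apply] at h1
      exact h1
  · rw [en_pe]
    congr 2
    unfold ang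
    rw [pe_apply, Equiv.symm_swap, Equiv.swap_apply_right]

end

/-- **AF-LOG.** -/
theorem af_log : S_LOG := by
  rintro ⟨c, C, hc, hC, hen⟩ ⟨CZ, hZ⟩ ⟨CS, hS⟩
  set C4 : ℝ := 1 + 9 * C with hC4
  set C5 : ℝ := C + C4 ^ 2 / 4 with hC5
  have hC4p : 0 < C4 := by positivity
  have hC5p : 0 < C5 := by positivity
  refine ⟨(3 * C * |CS| + |CZ| / (8 * Real.pi ^ 3)) + C5 * |CS| + C4 * |CS|, fun L _ hL => ?_⟩
  have hLp : (0 : ℝ) < L := by
    have : 0 < L := by omega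
    exact_mod_cast this
  have hpi := Real.pi_pos
  obtain ⟨-, -, h1⟩ := hS L hL
  have hZL := hZ L hL
  -- pointwise
  have hw : ∀ k ∈ univ.filter (fun k : Sp L => k ≠ 0), 0 < en k := fun k hk =>
    (hen L hL k (mem_filter.1 hk).2).1
  have hwh : ∀ k ∈ univ.filter (fun k : Sp L => k ≠ 0), wh2 k ≤ C4 * en k ^ 2 := by
    intro k hk
    obtain ⟨a1, a2, a3, a4, a5, a6, a7⟩ := hen L hL k (mem_filter.1 hk).2
    have b1 := (abs_le.1 a5).2
    have b3 : en k ^ 2 ≤ 9 := by nlinarith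
    have b2 : en k ^ 2 * en k ^ 2 ≤ 9 * en k ^ 2 :=
      mul_le_mul_of_nonneg_right b3 (sq_nonneg _)
    have b4 : C * (en k ^ 2 * en k ^ 2) ≤ C * (9 * en k ^ 2) := mul_le_mul_of_nonneg_left b2 hC.le
    rw [hC4]
    have b5 : C * en k ^ 4 = C * (en k ^ 2 * en k ^ 2) := by ring
    linarith
  have hS1 : ∑ k ∈ univ.filter (fun k : Sp L => k ≠ 0), 1 / en k ≤ |CS| * (L : ℝ) ^ 3 :=
    h1.trans (mul_le_mul_of_nonneg_right (le_abs_self CS) (by positivity))
  -- first sum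
  have hfirst : |(∑ k ∈ univ.filter (fun k : Sp L => k ≠ 0), 1 / en k ^ 3) / (L : ℝ) ^ 3 -
      1 / (2 * Real.pi ^ 2) * Real.log L| ≤ 3 * C * |CS| + |CZ| / (8 * Real.pi ^ 3) := by
    have e1 : ∀ k ∈ univ.filter (fun k : Sp L => k ≠ 0),
        |1 / en k ^ 3 - (L / (2 * Real.pi)) ^ 3 * (1 / ln k ^ 3)| ≤ 3 * C * (1 / en k) := by
      intro k hk
      obtain ⟨a1, a2, a3, a4, a5, a6, a7⟩ := hen L hL k (mem_filter.1 hk).2
      have b1 : en k ^ 2 ≤ (2 * Real.pi / L * ln k) ^ 2 :=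
        ((sq_le_cosh a1.le).trans a4.le).trans (wh2_le k)
      have b2 : en k ≤ 2 * Real.pi / L * ln k := by
        have b3 : 0 ≤ 2 * Real.pi / L * ln k := mul_nonneg (by positivity) (Real.sqrt_nonneg _)
        exact (pow_le_pow_iff_left₀ a1.le b3 two_ne_zero).1 b1
      have b4 : 2 * Real.pi / L * ln k - en k ≤ C * en k ^ 3 := by
        have := (abs_le.1 a7).1
        unfold ln
        linarith
      have b5 := inv_cube a1 b2 b4
      have b6 : 1 / (2 * Real.pi / L * ln k) ^ 3 = (L / (2 * Real.pi)) ^ 3 * (1 / ln k ^ 3) := by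
        have b7 : 0 < ln k := by
          by_contra hcon
          have : ln k = 0 := le_antisymm (not_lt.1 hcon) (Real.sqrt_nonneg _)
          rw [this, mul_zero] at b2
          linarith
        field_simp
      rwa [b6] at b5
    have e2 : |(∑ k ∈ univ.filter (fun k : Sp L => k ≠ 0), 1 / en k ^ 3) -
        (L / (2 * Real.pi)) ^ 3 * ∑ k ∈ univ.filter (fun k : Sp L => k ≠ 0), 1 / ln k ^ 3| ≤
        3 * C * (|CS| * (L : ℝ) ^ 3) := by
      rw [mul_sum, ← sum_sub_distrib]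
      refine (abs_sum_le_sum_abs _ _).trans ((sum_le_sum e1).trans ?_)
      rw [← mul_sum]
      exact mul_le_mul_of_nonneg_left hS1 (by positivity)
    set S := ∑ k ∈ univ.filter (fun k : Sp L => k ≠ 0), 1 / en k ^ 3 with hSd
    set R := ∑ k ∈ univ.filter (fun k : Sp L => k ≠ 0), 1 / ln k ^ 3 with hRd
    have e3 : |R - 4 * Real.pi * Real.log L| ≤ |CZ| := hZL.trans (le_abs_self CZ)
    have e4 : S / (L : ℝ) ^ 3 - 1 / (2 * Real.pi ^ 2) * Real.log L =
        (S - (L / (2 * Real.pi)) ^ 3 * R) / (L : ℝ) ^ 3 +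
          (R - 4 * Real.pi * Real.log L) / (8 * Real.pi ^ 3) := by
      field_simp
      ring
    rw [e4]
    refine (abs_add_le _ _).trans (add_le_add ?_ ?_)
    · rw [abs_div, abs_of_pos (show (0 : ℝ) < (L : ℝ) ^ 3 by positivity),
        div_le_iff₀ (by positivity)]
      calc _ ≤ 3 * C * (|CS| * (L : ℝ) ^ 3) := e2
        _ = _ := by ring
    · rw [abs_div, abs_of_pos (show (0 : ℝ) < 8 * Real.pi ^ 3 by positivity)]
      exact div_le_div_of_nonneg_right e3 (by positivity)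
  have hp1 : 0 ≤ C5 * |CS| := by positivity
  have hp2 : 0 ≤ C4 * |CS| := by positivity
  have hp3 : 0 ≤ 3 * C * |CS| + |CZ| / (8 * Real.pi ^ 3) := by positivity
  refine ⟨hfirst.trans (by linarith), ?_, ?_⟩
  · -- second sum
    have e0 : 3 * ∑ k ∈ univ.filter (fun k : Sp L => k ≠ 0), Real.sin (ang k 0) ^ 2 / en k ^ 5 =
        ∑ k ∈ univ.filter (fun k : Sp L => k ≠ 0), (∑ j, Real.sin (ang k j) ^ 2) / en k ^ 5 := by
      have e1 : ∀ k : Sp L, (∑ j, Real.sin (ang k j) ^ 2) / en k ^ 5 =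
          ∑ j, Real.sin (ang k j) ^ 2 / en k ^ 5 := fun k => sum_div _ _ _
      rw [sum_congr rfl fun k _ => e1 k, sum_comm]
      rw [Fin.sum_univ_three, ← sum_perm (L := L) 1, ← sum_perm (L := L) 2]
      ring
    have e1 : ∀ k ∈ univ.filter (fun k : Sp L => k ≠ 0),
        |(∑ j, Real.sin (ang k j) ^ 2) / en k ^ 5 - 1 / en k ^ 3| ≤ C5 * (1 / en k) := by
      intro k hk
      obtain ⟨a1, a2, a3, a4, a5, a6, a7⟩ := hen L hL k (mem_filter.1 hk).2
      have b0 := hwh k hk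
      have b1 : ∑ j, Real.sin (ang k j) ^ 2 = wh2 k - ∑ j, (1 - Real.cos (ang k j)) ^ 2 := by
        unfold wh2
        rw [← sum_sub_distrib]
        refine sum_congr rfl fun j _ => ?_
        rw [Real.sin_sq]
        ring
      have b2 : 0 ≤ ∑ j, (1 - Real.cos (ang k j)) ^ 2 := sum_nonneg fun j _ => sq_nonneg _
      have b3 : ∑ j, (1 - Real.cos (ang k j)) ^ 2 ≤ (wh2 k / 2) ^ 2 := by
        have c0 : ∀ j, 0 ≤ 1 - Real.cos (ang k j) := fun j => by
          linarith [Real.cos_le_one (ang k j)]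
        unfold wh2
        rw [Fin.sum_univ_three, Fin.sum_univ_three]
        nlinarith [mul_nonneg (c0 0) (c0 1), mul_nonneg (c0 0) (c0 2), mul_nonneg (c0 1) (c0 2)]
      have b4 : 0 ≤ wh2 k := by
        rw [← a4]
        linarith [Real.one_le_cosh (en k)]
      have b5 : (wh2 k / 2) ^ 2 ≤ C4 ^ 2 / 4 * en k ^ 4 := by
        have : (wh2 k) ^ 2 ≤ (C4 * en k ^ 2) ^ 2 := pow_le_pow_left₀ b4 b0 2
        calc (wh2 k / 2) ^ 2 = (wh2 k) ^ 2 / 4 := by ring
          _ ≤ (C4 * en k ^ 2) ^ 2 / 4 := by linarith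
          _ = _ := by ring
      have b6 : |∑ j, Real.sin (ang k j) ^ 2 - en k ^ 2| ≤ C5 * en k ^ 4 := by
        rw [b1]
        have b7 : C5 * en k ^ 4 = C * en k ^ 4 + C4 ^ 2 / 4 * en k ^ 4 := by
          rw [hC5]
          ring
        have b8 : 0 ≤ C4 ^ 2 / 4 * en k ^ 4 := by positivity
        obtain ⟨b9, b10⟩ := abs_le.1 a5
        generalize ∑ j, (1 - Real.cos (ang k j)) ^ 2 = X at *
        rw [abs_le, b7]
        constructor
        · linarith
        · linarith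
      have e5 : (∑ j, Real.sin (ang k j) ^ 2) / en k ^ 5 - 1 / en k ^ 3 =
          (∑ j, Real.sin (ang k j) ^ 2 - en k ^ 2) / en k ^ 5 := by
        field_simp
      rw [e5, abs_div, abs_of_pos (show 0 < en k ^ 5 by positivity), div_le_iff₀ (by positivity)]
      calc _ ≤ C5 * en k ^ 4 := b6
        _ = _ := by field_simp
    have e2 : |3 * ∑ k ∈ univ.filter (fun k : Sp L => k ≠ 0),
          Real.sin (ang k 0) ^ 2 / en k ^ 5 -
        ∑ k ∈ univ.filter (fun k : Sp L => k ≠ 0), 1 / en k ^ 3| ≤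
        C5 * (|CS| * (L : ℝ) ^ 3) := by
      rw [e0, ← sum_sub_distrib]
      refine (abs_sum_le_sum_abs _ _).trans ((sum_le_sum e1).trans ?_)
      rw [← mul_sum]
      exact mul_le_mul_of_nonneg_left hS1 hC5p.le
    set S := ∑ k ∈ univ.filter (fun k : Sp L => k ≠ 0), 1 / en k ^ 3 with hSd
    set Q := ∑ k ∈ univ.filter (fun k : Sp L => k ≠ 0), Real.sin (ang k 0) ^ 2 / en k ^ 5
      with hQd
    have e4 : Q / (L : ℝ) ^ 3 - 1 / (6 * Real.pi ^ 2) * Real.log L =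
        1 / 3 * ((3 * Q - S) / (L : ℝ) ^ 3) +
          1 / 3 * (S / (L : ℝ) ^ 3 - 1 / (2 * Real.pi ^ 2) * Real.log L) := by
      field_simp
      ring
    rw [e4]
    have e6 : |(3 * Q - S) / (L : ℝ) ^ 3| ≤ C5 * |CS| := by
      rw [abs_div, abs_of_pos (show (0 : ℝ) < (L : ℝ) ^ 3 by positivity),
        div_le_iff₀ (by positivity)]
      calc _ ≤ C5 * (|CS| * (L : ℝ) ^ 3) := e2
        _ = _ := by ring
    refine (abs_add_le _ _).trans ?_
    rw [abs_mul, abs_mul, abs_of_pos (show (0 : ℝ) < 1 / 3 by norm_num)]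
    linarith
  · -- third sum
    have e1 : ∀ k ∈ univ.filter (fun k : Sp L => k ≠ 0),
        |(1 - Real.cos (ang k 0)) / en k ^ 3| ≤ C4 * (1 / en k) := by
      intro k hk
      have a1 := hw k hk
      have b0 := hwh k hk
      have c0 : ∀ j, 0 ≤ 1 - Real.cos (ang k j) := fun j => by
        linarith [Real.cos_le_one (ang k j)]
      have b1 : 1 - Real.cos (ang k 0) ≤ wh2 k := by
        unfold wh2
        rw [Fin.sum_univ_three]
        linarith [c0 0, c0 1, c0 2]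
      rw [abs_of_nonneg (div_nonneg (c0 0) (by positivity)), div_le_iff₀ (by positivity)]
      calc _ ≤ C4 * en k ^ 2 := b1.trans b0
        _ = _ := by field_simp
    rw [abs_div, abs_of_pos (show (0 : ℝ) < (L : ℝ) ^ 3 by positivity),
      div_le_iff₀ (by positivity)]
    have e2 : |∑ k ∈ univ.filter (fun k : Sp L => k ≠ 0), (1 - Real.cos (ang k 0)) / en k ^ 3| ≤
        C4 * (|CS| * (L : ℝ) ^ 3) := by
      refine (abs_sum_le_sum_abs _ _).trans ((sum_le_sum e1).trans ?_)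
      rw [← mul_sum]
      exact mul_le_mul_of_nonneg_left hS1 hC4p.le
    refine e2.trans ?_
    have : 0 ≤ ((3 * C * |CS| + |CZ| / (8 * Real.pi ^ 3)) + C5 * |CS|) * (L : ℝ) ^ 3 := by
      positivity
    nlinarith

end Pool.Agent.Y363.AF
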